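import Pool.Agent.H93.PG.Targets

/-!
# Power-free shifts, board pgs, row TA3: tails, at least three letters
-/

set_option autoImplicit false

open MeasureTheory Filter Topology Finset Pool.Agent.H93.PF Pool.Agent.H93.PG

namespace Pool.Agent.H11.PG

/-- the letters -/
def lt {d : ℕ} (h : 3 ≤ d) (b : Bool) : Fin d := if b then ⟨1, by omega⟩ else ⟨0, by omega⟩

theorem lt_ne {d : ℕ} (h : 3 ≤ d) (b : Bool) : lt h b ≠ ⟨2, by omega⟩ := by
  cases b <;> simp [lt]

theorem lt_inj {d : ℕ} (h : 3 ≤ d) {a b : Bool} (hab : a ≠ b) : lt h a ≠ lt h b := by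
  cases a <;> cases b <;> simp [lt] at hab ⊢

theorem pf_TA3 (hTMB : T_TMB) (hTMO : T_TMO) (hTMC : T_TMC) : T_TA3 := by
  intro d m hd hm
  obtain ⟨b0, be, bo, ba, br⟩ := hTMB
  have x0 : ∀ i : ℕ, xx 1 (fun _ => (⟨2, by omega⟩ : Fin d)) (fun n => lt hd (tm n)) (i + 1) =
      lt hd (tm i) := by
    intro i
    unfold xx
    rw [if_neg (by omega)]
    rfl
  have x1 : xx 1 (fun _ => (⟨2, by omega⟩ : Fin d)) (fun n => lt hd (tm n)) 0 = ⟨2, by omega⟩ := by
    unfold xx
    rw [if_pos (by omega)]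
  have c1 : ∀ q i, 0 < q → ∃ j, i ≤ j ∧ j + q < i + m q ∧
      xx 1 (fun _ => (⟨2, by omega⟩ : Fin d)) (fun n => lt hd (tm n)) (j + q) ≠
      xx 1 (fun _ => (⟨2, by omega⟩ : Fin d)) (fun n => lt hd (tm n)) j := by
    intro q i hq
    have hmq := hm q hq
    rcases Nat.eq_zero_or_pos i with rfl | hi
    · refine ⟨0, le_rfl, by omega, ?_⟩
      obtain ⟨r, rfl⟩ : ∃ r, q = r + 1 := ⟨q - 1, by omega⟩
      rw [x1, Nat.zero_add, x0]
      exact lt_ne hd _
    · obtain ⟨j, h1, h2, h3⟩ := hTMO q (i - 1) hq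
      refine ⟨j + 1, by omega, by omega, ?_⟩
      rw [show j + 1 + q = (j + q) + 1 by omega, x0, x0]
      exact lt_inj hd h3
  have c2 : ∀ i, 0 < i → ∃ j, j < 1 ∧
      xx 1 (fun _ => (⟨2, by omega⟩ : Fin d)) (fun n => lt hd (tm n)) (i + j) ≠ ⟨2, by omega⟩ := by
    intro i hi
    refine ⟨0, by omega, ?_⟩
    obtain ⟨r, rfl⟩ : ∃ r, i = r + 1 := ⟨i - 1, by omega⟩
    rw [Nat.add_zero, x0]
    exact lt_ne hd _
  have cp : ∀ k, 0 < k →
      (Set.range fun (i : ℕ) (j : Fin k) => lt hd (tm (i + (j : ℕ)))).ncard ≤ 8 * (k + 1) := by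
    intro k hk
    have h1 : (Set.range fun (i : ℕ) (j : Fin k) => lt hd (tm (i + (j : ℕ)))) =
        (fun (w : Fin k → Bool) (j : Fin k) => lt hd (w j)) ''
          (Set.range fun (i : ℕ) (j : Fin k) => tm (i + (j : ℕ))) := by
      rw [← Set.range_comp]
      rfl
    rw [h1]
    have h2 := hTMC k hk
    have h3 := Set.ncard_image_le (f := fun (w : Fin k → Bool) (j : Fin k) => lt hd (w j))
      (Set.toFinite (Set.range fun (i : ℕ) (j : Fin k) => tm (i + (j : ℕ))))
    omega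
  let t : Tail d m :=
    { Y := 1
      y := fun _ => ⟨2, by omega⟩
      rt := fun n => lt hd (tm n)
      Y0 := by omega
      m2 := fun q hq => by
        have := hm q hq
        omega
      c1 := c1
      c2 := c2
      c3 := fun q hq => Or.inl (by
        have := hm q hq
        omega)
      cp := cp }
  have t1 : tm 1 = true := by
    have h := bo 0
    rw [b0] at h
    exact h
  have t2 : tm 2 = true := by
    have h := be 1
    rw [t1] at h
    exact h
  have t3 : tm 3 = false := by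
    have h := bo 1
    rw [t1] at h
    exact h
  have frm : ∀ K : ℕ, 2 ≤ K → ∃ N0 k1 k2, Frm t (⟨2, by omega⟩ : Fin d) K N0 k1 k2 := by
    intro K hK
    have hl1 : 2 * K + 2 < 4 ^ (Nat.log 4 (2 * K + 2) + 1) := Nat.lt_pow_succ_log_self (by norm_num) _
    have hl2 : 4 ^ Nat.log 4 (2 * K + 2) ≤ 2 * K + 2 := Nat.pow_log_le_self 4 (by omega)
    have hl3 : 4 ^ (Nat.log 4 (2 * K + 2) + 1) ≤ 4 * (2 * K + 2) := by
      rw [pow_succ]
      omega
    generalize Nat.log 4 (2 * K + 2) + 1 = i at hl1 hl3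
    have e4 : 4 ^ i = 2 ^ (2 * i) := by
      rw [pow_mul]
      norm_num
    have e5 : 4 * 4 ^ i = 2 ^ (2 * (i + 1)) := by
      rw [pow_mul, pow_succ]
      norm_num
      ring
    have ev : ∀ j : ℕ, (2 * j % 2 == 1) = false := by
      intro j
      have : 2 * j % 2 = 0 := by omega
      rw [this]
      rfl
    have pal : ∀ x, x < 4 * 4 ^ i → tm (4 * 4 ^ i - 1 - x) = tm x := by
      intro x hx
      rw [e5] at hx ⊢
      rw [br (2 * (i + 1)) x hx, ev, Bool.xor_false]
    have r1 : tm (3 * 4 ^ i + 2 - 1) = true := by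
      have h := ba (2 * i) 3 1 (by rw [← e4]; omega)
      rw [← e4, t3, t1] at h
      have h2 : 3 * 4 ^ i + 2 - 1 = 4 ^ i * 3 + 1 := by omega
      rw [h2]
      exact h
    have r2 : tm (4 ^ i - 2 - 1) = true := by
      have h := br (2 * i) 2 (by rw [← e4]; omega)
      rw [← e4, ev, Bool.xor_false, t2] at h
      have h2 : 4 ^ i - 2 - 1 = 4 ^ i - 1 - 2 := by omega
      rw [h2]
      exact h
    have z0 : ∀ b : Bool, b = true → lt hd b ≠ lt hd (tm 0) := by
      intro b hb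
      rw [hb, b0]
      exact lt_inj hd (by decide)
    refine ⟨4 * 4 ^ i, 3 * 4 ^ i + 2, 4 ^ i - 2, ?_⟩
    refine ⟨by omega, by omega, by omega, by omega, ?_, ?_, ?_, lt_ne hd _, lt_ne hd _, ?_, ?_⟩
    · show 3 * 4 ^ i + 2 + (4 ^ i - 2) + 1 = 4 * 4 ^ i + 1
      omega
    · intro x hx
      show lt hd (tm (4 * 4 ^ i - 1 - x)) = lt hd (tm x)
      rw [pal x hx]
    · intro x hx
      have : x + 1 < 1 := hx
      omega
    · exact ⟨0, by omega, z0 _ r1⟩
    · exact ⟨0, by omega, z0 _ r2⟩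
  exact ⟨{ t := t
           e := ⟨2, by omega⟩
           ye := fun _ => rfl
           e0 := lt_ne hd (tm 0)
           my := fun q hq => by
             have h1 := hm q hq
             show 2 * q + 1 ≤ m q + 1
             omega
           frm := frm }, rfl⟩

end Pool.Agent.H11.PG
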